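import Pool.Agent.Helper26.MCE.GoalsB

/-!
Project MCE (MP_d8224a_co), packet MCE-RES: resampling of one coordinate of a product.
-/

namespace Pool.Agent.Helper22.MCE

open Finset Pool.Agent.Helper26.MCE

theorem goalRES : G_RES := by
  classical
  intro ι α _ _ K i S1 S2 q h1 h2
  have e1 : (((Fintype.piFinset K).filter fun ω => S1 ω ∧ S2 ω) ×ˢ K i).card ≤
      (((Fintype.piFinset K).filter S1).sigma
        (fun ω => (K i).filter fun x => S2 (Function.update ω i x))).card := by
    apply Finset.card_le_card_of_injOn
      (fun p => (⟨Function.update p.1 i p.2, p.1 i⟩ : Σ _ : ι → α, α))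
    · rintro ⟨ω, x⟩ hp
      simp only [Finset.coe_product, Set.mem_prod, Finset.mem_coe, Finset.mem_filter] at hp
      obtain ⟨⟨hω, hs1, hs2⟩, hx⟩ := hp
      simp only [Finset.mem_coe, Finset.mem_sigma, Finset.mem_filter]
      refine ⟨⟨?_, (h1 ω hω x hx).1 hs1⟩, (Fintype.mem_piFinset.1 hω) i, ?_⟩
      · rw [Fintype.mem_piFinset]
        intro j
        by_cases hj : j = i
        · subst hj; simpa using hx
        · rw [Function.update_of_ne hj]; exact (Fintype.mem_piFinset.1 hω) j
      · rw [Function.update_idem, Function.update_eq_self]; exact hs2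
    · rintro ⟨ω, x⟩ _ ⟨ω', x'⟩ _ h
      simp only [Sigma.mk.injEq, heq_eq_eq] at h
      obtain ⟨ha, hb⟩ := h
      have hx : x = x' := by
        have := congrFun ha i
        simpa using this
      have hω : ω = ω' := by
        have := congrArg (fun g => Function.update g i (ω i)) ha
        simp only [Function.update_idem, Function.update_eq_self] at this
        rw [hb, Function.update_eq_self] at this
        exact this
      rw [hx, hω]
  rw [Finset.card_product, Finset.card_sigma] at e1
  refine e1.trans ?_
  refine (Finset.sum_le_card_nsmul _ _ q ?_).trans ?_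
  · intro ω hω
    rw [Finset.mem_filter] at hω
    exact h2 ω hω.1 hω.2
  · rw [smul_eq_mul, mul_comm]

end Pool.Agent.Helper22.MCE
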